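import Mathlib

/-!
# Truncated gap integrals in dimension one: the scaling `(δ/ε)^(1-p)` fails for all `p ∈ [0,1)`
-/

set_option autoImplicit false

open MeasureTheory Set Filter
open scoped ENNReal

namespace Pool.Agent.Results.MP_a53ef7_an.LogDivergence

/-- The truncated gap integral `G_p^t(f, Ω)` for `Ω ⊆ ℝ` (dimension `m = 1`), where the distance of
the target is the one of the metric space `N`. (`Real.rpow` satisfies `0 ^ 0 = 1`.) -/
noncomputable def gap {N : Type*} [MetricSpace N] (p t : ℝ) (f : ℝ → N) (Ω : Set ℝ) : ℝ≥0∞ :=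
  ∫⁻ z in {z : ℝ × ℝ | z ∈ Ω ×ˢ Ω ∧ t ≤ dist (f z.2) (f z.1)},
    ENNReal.ofReal ((dist (f z.2) (f z.1) - t) ^ p / |z.2 - z.1| ^ (2 * 1))

/-- `N` contains an isometric copy of a nondegenerate segment. -/
def HasSegment (N : Type*) [MetricSpace N] : Prop :=
  ∃ H : ℝ, 0 < H ∧ ∃ γ : ℝ → N, ∀ s ∈ Icc 0 H, ∀ t ∈ Icc 0 H, dist (γ s) (γ t) = |s - t|

/-- The retraction of `ℝ` to `[0,1]`. -/
noncomputable def cl (x : ℝ) : ℝ := max 0 (min x 1)

lemma cl_mem (x : ℝ) : 0 ≤ cl x ∧ cl x ≤ 1 := ⟨le_max_left _ _, max_le zero_le_one (min_le_right _ _)⟩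

lemma cl_of_neg {x : ℝ} (hx : x < 0) : cl x = 0 := by
  unfold cl
  rw [max_eq_left]
  exact (min_le_left _ _).trans hx.le

lemma cl_of_gt {x : ℝ} (hx : 1 < x) : cl x = 1 := by
  unfold cl
  rw [min_eq_right hx.le, max_eq_right zero_le_one]

lemma cl_sub_le (x y : ℝ) : |cl y - cl x| ≤ |y - x| := by
  unfold cl
  calc |max 0 (min y 1) - max 0 (min x 1)| ≤ |min y 1 - min x 1| := by
        have := abs_max_sub_max_le_max 0 (min y 1) 0 (min x 1)
        simpa using this
    _ ≤ |y - x| := by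
        have := abs_min_sub_min_le_max y 1 x 1
        simpa using this

/-- The kernel. -/
noncomputable def ker (t : ℝ) : ℝ≥0∞ := ENNReal.ofReal (1 / |t| ^ 2)

/-- The kernel away from zero. -/
noncomputable def kerc (c t : ℝ) : ℝ≥0∞ := {t : ℝ | c ≤ |t|}.indicator ker t

lemma measurable_ker : Measurable ker := by
  unfold ker
  fun_prop

lemma measurable_kerc (c : ℝ) : Measurable (kerc c) :=
  measurable_ker.indicator (measurableSet_le measurable_const (by fun_prop))

lemma lintegral_kerc_lt_top {c : ℝ} (hc : 0 < c) : ∫⁻ t, kerc c t < ∞ := by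
  have hint : Integrable (fun t : ℝ => (1 + 1 / c ^ 2) * (1 + t ^ 2)⁻¹) :=
    integrable_inv_one_add_sq.const_mul _
  refine lt_of_le_of_lt (lintegral_mono fun t => ?_) hint.lintegral_lt_top
  unfold kerc
  by_cases ht : t ∈ {t : ℝ | c ≤ |t|}
  · rw [indicator_of_mem ht]
    have ht' : c ≤ |t| := ht
    have h0 : 0 < |t| := lt_of_lt_of_le hc ht'
    unfold ker
    refine ENNReal.ofReal_le_ofReal ?_
    have h1 : c ^ 2 ≤ t ^ 2 := by rw [← sq_abs t]; gcongr
    have h2 : 0 < t ^ 2 := by rw [← sq_abs t]; positivity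
    rw [sq_abs, ← div_eq_mul_inv, div_le_div_iff₀ h2 (by positivity), one_mul, add_mul, one_mul]
    have h3 : 1 / c ^ 2 * t ^ 2 ≥ 1 := by
      rw [ge_iff_le, div_mul_eq_mul_div, one_mul, one_le_div (by positivity)]
      exact h1
    linarith
  · rw [indicator_of_notMem ht]
    exact zero_le

/-- The two rectangles on which the map jumps by the whole height. -/
def S12 (R : ℝ) : Set (ℝ × ℝ) := Ioo (-R) 0 ×ˢ Ioo 1 R ∪ Ioo 1 R ×ˢ Ioo (-R) 0

/-- The remaining region. -/
def S3 (c : ℝ) : Set (ℝ × ℝ) :=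
  {z | z.1 ∈ Icc (0 : ℝ) 1 ∧ c ≤ |z.2 - z.1|} ∪ {z | z.2 ∈ Icc (0 : ℝ) 1 ∧ c ≤ |z.2 - z.1|}

/-- The integral of the kernel over the two rectangles. -/
noncomputable def AR (R : ℝ) : ℝ≥0∞ := ∫⁻ z in S12 R, ker (z.2 - z.1)

/-- The integral of the kernel over the remaining region. -/
noncomputable def KC (c : ℝ) : ℝ≥0∞ := ∫⁻ z in S3 c, ker (z.2 - z.1)

lemma measurable_ker_sub : Measurable (fun z : ℝ × ℝ => ker (z.2 - z.1)) :=
  measurable_ker.comp (measurable_snd.sub measurable_fst)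

lemma measurableSet_S12 (R : ℝ) : MeasurableSet (S12 R) :=
  (measurableSet_Ioo.prod measurableSet_Ioo).union (measurableSet_Ioo.prod measurableSet_Ioo)

lemma measurableSet_far (c : ℝ) : MeasurableSet {z : ℝ × ℝ | c ≤ |z.2 - z.1|} :=
  measurableSet_le measurable_const (by fun_prop)

lemma KC_lt_top {c : ℝ} (hc : 0 < c) : KC c < ∞ := by
  unfold KC S3
  refine lt_of_le_of_lt (lintegral_union_le _ _ _) ?_
  have hm1 : MeasurableSet {z : ℝ × ℝ | z.1 ∈ Icc (0 : ℝ) 1 ∧ c ≤ |z.2 - z.1|} :=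
    (measurableSet_Icc.preimage measurable_fst).inter (measurableSet_far c)
  have hm2 : MeasurableSet {z : ℝ × ℝ | z.2 ∈ Icc (0 : ℝ) 1 ∧ c ≤ |z.2 - z.1|} :=
    (measurableSet_Icc.preimage measurable_snd).inter (measurableSet_far c)
  rw [ENNReal.add_lt_top]
  constructor
  · rw [← lintegral_indicator hm1, Measure.volume_eq_prod,
      lintegral_prod _ ((measurable_ker_sub.indicator hm1).aemeasurable)]
    calc ∫⁻ x, ∫⁻ y, {z : ℝ × ℝ | z.1 ∈ Icc (0 : ℝ) 1 ∧ c ≤ |z.2 - z.1|}.indicator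
            (fun z => ker (z.2 - z.1)) (x, y)
        ≤ ∫⁻ x, (Icc (0 : ℝ) 1).indicator (fun _ => ∫⁻ t, kerc c t) x := by
          refine lintegral_mono fun x => ?_
          by_cases hx : x ∈ Icc (0 : ℝ) 1
          · rw [indicator_of_mem hx, ← lintegral_sub_right_eq_self (kerc c) x]
            refine lintegral_mono fun y => ?_
            by_cases hy : c ≤ |y - x|
            · rw [indicator_of_mem (by exact ⟨hx, hy⟩)]
              unfold kerc
              rw [indicator_of_mem (by exact hy)]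
            · rw [indicator_of_notMem (by rintro ⟨_, h⟩; exact hy h)]
              exact zero_le
          · rw [indicator_of_notMem hx]
            refine le_of_eq ?_
            rw [lintegral_eq_zero_iff' ?_]
            · refine Eventually.of_forall fun y => ?_
              show {z : ℝ × ℝ | z.1 ∈ Icc (0 : ℝ) 1 ∧ c ≤ |z.2 - z.1|}.indicator
                (fun z => ker (z.2 - z.1)) (x, y) = 0
              rw [indicator_of_notMem (by rintro ⟨h, _⟩; exact hx h)]
            · exact ((measurable_ker_sub.indicator hm1).comp measurable_prodMk_left).aemeasurable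
      _ = (∫⁻ t, kerc c t) * volume (Icc (0 : ℝ) 1) := by
          rw [lintegral_indicator measurableSet_Icc, setLIntegral_const]
      _ < ∞ := by
          refine ENNReal.mul_lt_top (lintegral_kerc_lt_top hc) ?_
          simp
  · rw [← lintegral_indicator hm2, Measure.volume_eq_prod,
      lintegral_prod_symm _ ((measurable_ker_sub.indicator hm2).aemeasurable)]
    calc ∫⁻ y, ∫⁻ x, {z : ℝ × ℝ | z.2 ∈ Icc (0 : ℝ) 1 ∧ c ≤ |z.2 - z.1|}.indicator
            (fun z => ker (z.2 - z.1)) (x, y)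
        ≤ ∫⁻ y, (Icc (0 : ℝ) 1).indicator (fun _ => ∫⁻ t, kerc c t) y := by
          refine lintegral_mono fun y => ?_
          by_cases hy : y ∈ Icc (0 : ℝ) 1
          · rw [indicator_of_mem hy, ← lintegral_sub_left_eq_self (kerc c) y]
            refine lintegral_mono fun x => ?_
            by_cases hx : c ≤ |y - x|
            · rw [indicator_of_mem (by exact ⟨hy, hx⟩)]
              unfold kerc
              rw [indicator_of_mem (by exact hx)]
            · rw [indicator_of_notMem (by rintro ⟨_, h⟩; exact hx h)]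
              exact zero_le
          · rw [indicator_of_notMem hy]
            refine le_of_eq ?_
            rw [lintegral_eq_zero_iff' ?_]
            · refine Eventually.of_forall fun x => ?_
              show {z : ℝ × ℝ | z.2 ∈ Icc (0 : ℝ) 1 ∧ c ≤ |z.2 - z.1|}.indicator
                (fun z => ker (z.2 - z.1)) (x, y) = 0
              rw [indicator_of_notMem (by rintro ⟨h, _⟩; exact hy h)]
            · exact ((measurable_ker_sub.indicator hm2).comp measurable_prodMk_right).aemeasurable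
      _ = (∫⁻ t, kerc c t) * volume (Icc (0 : ℝ) 1) := by
          rw [lintegral_indicator measurableSet_Icc, setLIntegral_const]
      _ < ∞ := by
          refine ENNReal.mul_lt_top (lintegral_kerc_lt_top hc) ?_
          simp

lemma AR_lt_top (R : ℝ) : AR R < ∞ := by
  unfold AR
  have h1 : ∫⁻ z in S12 R, ker (z.2 - z.1) ≤ ∫⁻ _ in S12 R, 1 := by
    refine setLIntegral_mono measurable_const fun z hz => ?_
    unfold ker
    refine ENNReal.ofReal_le_one.mpr ?_
    have h : 1 ≤ |z.2 - z.1| := by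
      rcases hz with ⟨h1, h2⟩ | ⟨h1, h2⟩
      · rw [abs_of_pos (by linarith [h1.2, h2.1])]; linarith [h1.2, h2.1]
      · rw [abs_of_neg (by linarith [h1.1, h2.2])]; linarith [h1.1, h2.2]
    rw [div_le_one (by positivity)]
    nlinarith
  refine lt_of_le_of_lt h1 ?_
  rw [setLIntegral_const, one_mul]
  refine lt_of_le_of_lt (measure_union_le _ _) ?_
  rw [Measure.volume_eq_prod, Measure.prod_prod, Measure.prod_prod]
  simp only [Real.volume_Ioo]
  rw [ENNReal.add_lt_top]
  exact ⟨ENNReal.mul_lt_top ENNReal.ofReal_lt_top ENNReal.ofReal_lt_top,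
    ENNReal.mul_lt_top ENNReal.ofReal_lt_top ENNReal.ofReal_lt_top⟩

lemma block (j : ℕ) : ENNReal.ofReal (1 / 9) ≤
    ∫⁻ z in Ioo (-(2 : ℝ) ^ j) 0 ×ˢ Ioo ((2 : ℝ) ^ j) (2 ^ (j + 1)), ker (z.2 - z.1) := by
  have hpos : (0 : ℝ) < 2 ^ j := by positivity
  have h1 : ∫⁻ _ in Ioo (-(2 : ℝ) ^ j) 0 ×ˢ Ioo ((2 : ℝ) ^ j) (2 ^ (j + 1)),
      ENNReal.ofReal (1 / (3 * 2 ^ j) ^ 2) ≤
      ∫⁻ z in Ioo (-(2 : ℝ) ^ j) 0 ×ˢ Ioo ((2 : ℝ) ^ j) (2 ^ (j + 1)), ker (z.2 - z.1) := by
    refine setLIntegral_mono measurable_ker_sub ?_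
    rintro ⟨x, y⟩ ⟨hx, hy⟩
    simp only at hx hy
    unfold ker
    refine ENNReal.ofReal_le_ofReal ?_
    have hxy : 0 < y - x := by linarith [hx.2, hy.1]
    have hle : y - x ≤ 3 * 2 ^ j := by
      have := hx.1
      have h3 := hy.2
      rw [pow_succ] at h3
      linarith
    rw [abs_of_pos hxy]
    exact one_div_le_one_div_of_le (by positivity) (by gcongr)
  refine le_trans ?_ h1
  rw [setLIntegral_const, Measure.volume_eq_prod, Measure.prod_prod, Real.volume_Ioo,
    Real.volume_Ioo, ← ENNReal.ofReal_mul (by linarith), ← ENNReal.ofReal_mul (by positivity)]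
  refine ENNReal.ofReal_le_ofReal (le_of_eq ?_)
  rw [pow_succ]
  field_simp
  ring

lemma AR_lower (J : ℕ) : (J : ℝ≥0∞) * ENNReal.ofReal (1 / 9) ≤
    ∫⁻ z in Ioo (-(2 : ℝ) ^ J) 0 ×ˢ Ioo 1 ((2 : ℝ) ^ J), ker (z.2 - z.1) := by
  induction J with
  | zero => simp
  | succ J ih =>
    have hpos : (0 : ℝ) < 2 ^ J := by positivity
    have h12 : (1 : ℝ) ≤ 2 ^ J := one_le_pow₀ (by norm_num)
    have hsub : Ioo (-(2 : ℝ) ^ J) 0 ×ˢ Ioo 1 ((2 : ℝ) ^ J) ∪
        Ioo (-(2 : ℝ) ^ J) 0 ×ˢ Ioo ((2 : ℝ) ^ J) (2 ^ (J + 1)) ⊆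
        Ioo (-(2 : ℝ) ^ (J + 1)) 0 ×ˢ Ioo 1 ((2 : ℝ) ^ (J + 1)) := by
      have h2 : (2 : ℝ) ^ J ≤ 2 ^ (J + 1) := by rw [pow_succ]; linarith
      refine union_subset (prod_mono ?_ ?_) (prod_mono ?_ ?_)
      · exact Ioo_subset_Ioo_left (by linarith)
      · exact Ioo_subset_Ioo_right h2
      · exact Ioo_subset_Ioo_left (by linarith)
      · exact Ioo_subset_Ioo_left h12
    refine le_trans ?_ (lintegral_mono_set hsub)
    rw [lintegral_union (measurableSet_Ioo.prod measurableSet_Ioo)]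
    · push_cast
      rw [add_mul, one_mul]
      exact add_le_add ih (block J)
    · rw [Set.disjoint_left]
      rintro ⟨x, y⟩ ⟨_, h1⟩ ⟨_, h2⟩
      simp only at h1 h2
      linarith [h1.2, h2.1]

lemma exists_AR_gt {K : ℝ≥0∞} (hK : K < ∞) : ∃ R : ℝ, 0 < R ∧ K < AR R := by
  obtain ⟨n, hn⟩ := exists_nat_gt (K.toReal * 9)
  refine ⟨2 ^ n, by positivity, ?_⟩
  have h1 := AR_lower n
  have h2 : ∫⁻ z in Ioo (-(2 : ℝ) ^ n) 0 ×ˢ Ioo 1 ((2 : ℝ) ^ n), ker (z.2 - z.1) ≤ AR (2 ^ n) :=
    lintegral_mono_set subset_union_left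
  refine lt_of_lt_of_le ?_ (h1.trans h2)
  rw [← ENNReal.ofReal_natCast, ← ENNReal.ofReal_mul (Nat.cast_nonneg n),
    ENNReal.lt_ofReal_iff_toReal_lt hK.ne]
  linarith

/-- For every `p ∈ [0,1)` no constant `C` works in dimension `m = 1`, for any target that contains
an isometric copy of a segment; in particular for the circle with its geodesic distance. -/
theorem result :
    (∀ (N : Type) [MetricSpace N], HasSegment N → ∀ p : ℝ, 0 ≤ p → p < 1 → ∀ C : ℝ, 0 < C →
      ∃ (R : ℝ) (f : ℝ → N) (δ ε : ℝ), 0 < R ∧ Continuous f ∧ 0 < δ ∧ δ < ε ∧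
        ENNReal.ofReal (C * (δ / ε) ^ ((1 : ℝ) - p)) * gap p δ f (Ioo (-R) R) <
          gap p ε f (Ioo (-R) R)) ∧
    HasSegment (AddCircle (2 * Real.pi)) := by
  constructor
  · intro N _ ⟨H, hH, γ, hγ⟩ p hp0 hp1 C hC
    -- choose the ratio
    set η : ℝ := (1 / 2) ^ p / (2 * C) with hη
    have hηpos : 0 < η := by positivity
    obtain ⟨κ, hκ0, hκ1, hκ⟩ : ∃ κ : ℝ, 0 < κ ∧ κ < 1 ∧ κ ^ (1 - p) ≤ η := by
      refine ⟨min (1 / 2) (η ^ (1 / (1 - p))), by positivity,
        lt_of_le_of_lt (min_le_left _ _) (by norm_num), ?_⟩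
      calc (min (1 / 2) (η ^ (1 / (1 - p)))) ^ (1 - p) ≤ (η ^ (1 / (1 - p))) ^ (1 - p) :=
            Real.rpow_le_rpow (by positivity) (min_le_right _ _) (by linarith)
        _ = η := by
            rw [← Real.rpow_mul hηpos.le, one_div_mul_cancel (by linarith), Real.rpow_one]
    set ε : ℝ := H / 2 with hε
    set δ : ℝ := κ * ε with hδ
    have hεpos : 0 < ε := by positivity
    have hδpos : 0 < δ := by positivity
    have hδε : δ < ε := by rw [hδ]; nlinarith
    set c : ℝ := δ / H with hc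
    have hcpos : 0 < c := by positivity
    obtain ⟨R, hR, hRK⟩ := exists_AR_gt (KC_lt_top hcpos)
    set f : ℝ → N := fun x => γ (H * cl x) with hf
    have hmem : ∀ x, H * cl x ∈ Icc 0 H := fun x =>
      ⟨mul_nonneg hH.le (cl_mem x).1, by nlinarith [(cl_mem x).2]⟩
    have hdist : ∀ x y, dist (f y) (f x) = H * |cl y - cl x| := by
      intro x y
      rw [hf]
      simp only
      rw [hγ _ (hmem y) _ (hmem x), ← mul_sub, abs_mul, abs_of_pos hH]
    have hcont : Continuous f := by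
      have : LipschitzWith (Real.toNNReal H) f := by
        refine LipschitzWith.of_dist_le_mul fun x y => ?_
        rw [hdist, Real.coe_toNNReal _ hH.le, Real.dist_eq]
        exact mul_le_mul_of_nonneg_left (cl_sub_le y x) hH.le
      exact this.continuous
    refine ⟨R, f, δ, ε, hR, hcont, hδpos, hδε, ?_⟩
    have hratio : δ / ε = κ := by rw [hδ]; field_simp
    rw [hratio]
    -- lower bound
    have hlow : ENNReal.ofReal ((H / 2) ^ p) * AR R ≤ gap p ε f (Ioo (-R) R) := by
      unfold gap AR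
      rw [← lintegral_const_mul _ measurable_ker_sub]
      have hR1 : ∀ z ∈ S12 R, dist (f z.2) (f z.1) = H ∧ z ∈ Ioo (-R) R ×ˢ Ioo (-R) R := by
        rintro ⟨x, y⟩ (⟨hx, hy⟩ | ⟨hx, hy⟩)
        · simp only at hx hy
          refine ⟨?_, ⟨hx.1, by linarith [hx.2]⟩, ⟨by linarith [hy.1], hy.2⟩⟩
          rw [hdist]
          simp only
          rw [cl_of_neg hx.2, cl_of_gt hy.1]
          simp
        · simp only at hx hy
          refine ⟨?_, ⟨by linarith [hx.1], hx.2⟩, ⟨hy.1, by linarith [hy.2]⟩⟩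
          rw [hdist]
          simp only
          rw [cl_of_neg hy.2, cl_of_gt hx.1]
          simp
      have hsub : S12 R ⊆ {z : ℝ × ℝ | z ∈ Ioo (-R) R ×ˢ Ioo (-R) R ∧
          ε ≤ dist (f z.2) (f z.1)} := by
        intro z hz
        refine ⟨(hR1 z hz).2, ?_⟩
        rw [(hR1 z hz).1, hε]
        linarith
      refine le_trans ?_ (lintegral_mono_set hsub)
      refine le_of_eq (setLIntegral_congr_fun (measurableSet_S12 R) fun z hz => ?_)
      rw [(hR1 z hz).1]
      unfold ker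
      rw [← ENNReal.ofReal_mul (by positivity)]
      congr 1
      rw [hε]
      have : H - H / 2 = H / 2 := by ring
      rw [this]
      ring
    -- upper bound
    have hup : gap p δ f (Ioo (-R) R) ≤ ENNReal.ofReal (H ^ p) * (AR R + KC c) := by
      unfold gap
      have hcov : {z : ℝ × ℝ | z ∈ Ioo (-R) R ×ˢ Ioo (-R) R ∧ δ ≤ dist (f z.2) (f z.1)} ⊆
          S12 R ∪ S3 c := by
        rintro ⟨x, y⟩ ⟨⟨hx, hy⟩, hd⟩
        simp only at hx hy hd
        rw [hdist] at hd
        have hd' : c ≤ |cl y - cl x| := by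
          rw [hc, div_le_iff₀ hH, mul_comm]; exact hd
        have hfar : c ≤ |y - x| := hd'.trans (cl_sub_le x y)
        by_cases hx1 : x ∈ Icc (0 : ℝ) 1
        · exact Or.inr (Or.inl ⟨hx1, hfar⟩)
        by_cases hy1 : y ∈ Icc (0 : ℝ) 1
        · exact Or.inr (Or.inr ⟨hy1, hfar⟩)
        left
        rw [mem_Icc, not_and_or, not_le, not_le] at hx1 hy1
        rcases hx1 with hx1 | hx1 <;> rcases hy1 with hy1 | hy1
        · rw [cl_of_neg hx1, cl_of_neg hy1] at hd'
          simp at hd'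
          linarith
        · exact Or.inl ⟨⟨hx.1, hx1⟩, ⟨hy1, hy.2⟩⟩
        · exact Or.inr ⟨⟨hx1, hx.2⟩, ⟨hy.1, hy1⟩⟩
        · rw [cl_of_gt hx1, cl_of_gt hy1] at hd'
          simp at hd'
          linarith
      calc ∫⁻ z in {z : ℝ × ℝ | z ∈ Ioo (-R) R ×ˢ Ioo (-R) R ∧ δ ≤ dist (f z.2) (f z.1)},
            ENNReal.ofReal ((dist (f z.2) (f z.1) - δ) ^ p / |z.2 - z.1| ^ (2 * 1))
          ≤ ∫⁻ z in {z : ℝ × ℝ | z ∈ Ioo (-R) R ×ˢ Ioo (-R) R ∧ δ ≤ dist (f z.2) (f z.1)},
            ENNReal.ofReal (H ^ p) * ker (z.2 - z.1) := by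
            refine setLIntegral_mono (measurable_ker_sub.const_mul _) fun z hz => ?_
            unfold ker
            rw [← ENNReal.ofReal_mul (by positivity)]
            refine ENNReal.ofReal_le_ofReal ?_
            rw [mul_one_div]
            refine div_le_div_of_nonneg_right ?_ (by positivity)
            have hd2 : δ ≤ dist (f z.2) (f z.1) := hz.2
            refine Real.rpow_le_rpow (by linarith) ?_ hp0
            rw [hdist]
            have h1 := cl_mem z.1
            have h2 := cl_mem z.2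
            have : |cl z.2 - cl z.1| ≤ 1 := by rw [abs_le]; constructor <;> linarith
            nlinarith
        _ ≤ ∫⁻ z in S12 R ∪ S3 c, ENNReal.ofReal (H ^ p) * ker (z.2 - z.1) :=
            lintegral_mono_set hcov
        _ ≤ (∫⁻ z in S12 R, ENNReal.ofReal (H ^ p) * ker (z.2 - z.1)) +
            ∫⁻ z in S3 c, ENNReal.ofReal (H ^ p) * ker (z.2 - z.1) := lintegral_union_le _ _ _
        _ = ENNReal.ofReal (H ^ p) * (AR R + KC c) := by
            rw [lintegral_const_mul _ measurable_ker_sub, lintegral_const_mul _ measurable_ker_sub,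
              ← mul_add]
            rfl
    refine lt_of_le_of_lt (mul_le_mul_right hup _) (lt_of_lt_of_le ?_ hlow)
    -- arithmetic
    have hA := AR_lt_top R
    have hKt := KC_lt_top hcpos
    set A : ℝ := (AR R).toReal with hAdef
    set K : ℝ := (KC c).toReal with hKdef
    have hAeq : AR R = ENNReal.ofReal A := (ENNReal.ofReal_toReal hA.ne).symm
    have hKeq : KC c = ENNReal.ofReal K := (ENNReal.ofReal_toReal hKt.ne).symm
    have hK0 : 0 ≤ K := ENNReal.toReal_nonneg
    have hKA : K < A := (ENNReal.toReal_lt_toReal hKt.ne hA.ne).mpr hRK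
    have hA0 : 0 < A := lt_of_le_of_lt hK0 hKA
    rw [hAeq, hKeq, ← ENNReal.ofReal_add hA0.le hK0, ← ENNReal.ofReal_mul (by positivity),
      ← ENNReal.ofReal_mul (by positivity), ← ENNReal.ofReal_mul (by positivity),
      ENNReal.ofReal_lt_ofReal_iff (by positivity)]
    have hHp : (H / 2) ^ p = H ^ p * (1 / 2) ^ p := by
      rw [← Real.mul_rpow hH.le (by norm_num)]
      congr 1
      ring
    rw [hHp]
    have hHpos : 0 < H ^ p := by positivity
    have hκpos : 0 < κ ^ (1 - p) := by positivity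
    have h1 : C * κ ^ (1 - p) * 2 ≤ (1 / 2) ^ p := by
      calc C * κ ^ (1 - p) * 2 ≤ C * η * 2 := by gcongr
        _ = (1 / 2) ^ p := by rw [hη]; field_simp
    calc C * κ ^ (1 - p) * (H ^ p * (A + K)) < C * κ ^ (1 - p) * (H ^ p * (2 * A)) := by
          have : A + K < 2 * A := by linarith
          gcongr
      _ = (C * κ ^ (1 - p) * 2) * (H ^ p * A) := by ring
      _ ≤ (1 / 2) ^ p * (H ^ p * A) := by gcongr
      _ = H ^ p * (1 / 2) ^ p * A := by ring
  · refine ⟨1, one_pos, fun s => (s : AddCircle (2 * Real.pi)), fun s hs t ht => ?_⟩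
    have hpi := Real.pi_gt_three
    have h2pi : 2 * Real.pi ≠ 0 := by positivity
    have h1 : |s - t| ≤ 1 := by
      rw [abs_le]; constructor <;> linarith [hs.1, hs.2, ht.1, ht.2]
    rw [dist_eq_norm, ← AddCircle.coe_sub, AddCircle.norm_coe_eq_abs_iff _ h2pi,
      abs_of_pos (show (0 : ℝ) < 2 * Real.pi by positivity)]
    linarith

end Pool.Agent.Results.MP_a53ef7_an.LogDivergence
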